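import Mathlib

set_option autoImplicit false

namespace Run7.h50

open SimpleGraph

/-- Letters: an id in `Fin n` together with a copy index in `Fin N`. -/
abbrev Letter (n N : ℕ) := Fin n × Fin N

/-- Vertices: (node, layer, kind); kind `true` is a hub, kind `false` a row vertex. -/
abbrev W (n N : ℕ) := List (Letter n N) × Fin n × Bool

/-- The node of the current holder of id `j` at the state `τ` (newest letter first). -/
def holder {n N : ℕ} (j : Fin n) (τ : List (Letter n N)) : List (Letter n N) :=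
  τ.dropWhile (fun l => decide (l.1 ≠ j))

/-- One direction of the adjacency: consecutive row vertices of one node, and a row vertex with the
hub that currently holds its layer. -/
def rel {n N : ℕ} (u v : W n N) : Prop :=
  (u.2.2 = false ∧ v.2.2 = false ∧ u.1 = v.1 ∧ (u.2.1 : ℕ) + 1 = v.2.1) ∨
  (u.2.2 = false ∧ v.2.2 = true ∧ u.2.1 = v.2.1 ∧ v.1 = holder u.2.1 u.1)

/-- The row-and-hub graph. -/
def GInf (n N : ℕ) : SimpleGraph (W n N) := SimpleGraph.fromRel rel

lemma holder_suffix {n N : ℕ} (j : Fin n) (τ : List (Letter n N)) : holder j τ <:+ τ :=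
  List.dropWhile_suffix _

lemma holder_append_of_not {n N : ℕ} (j : Fin n) (r g : List (Letter n N))
    (h : ∀ l ∈ r, l.1 ≠ j) : holder j (r ++ g) = holder j g := by
  unfold holder
  rw [List.dropWhile_append_of_pos]
  intro l hl
  simpa using h l hl

lemma holder_cons_self {n N : ℕ} (j : Fin n) (i : Fin N) (g : List (Letter n N)) :
    holder j ((j, i) :: g) = (j, i) :: g := by
  simp [holder]

lemma holder_cons_ne {n N : ℕ} {j a : Fin n} (h : a ≠ j) (i : Fin N) (g : List (Letter n N)) :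
    holder j ((a, i) :: g) = holder j g := by
  simp [holder, h]

lemma holder_append_of_mem {n N : ℕ} (j : Fin n) (r g : List (Letter n N))
    (h : ∃ l ∈ r, l.1 = j) : ∃ r', r' ≠ [] ∧ holder j (r ++ g) = r' ++ g := by
  unfold holder
  rw [List.dropWhile_append]
  have hne : r.dropWhile (fun l => decide (l.1 ≠ j)) ≠ [] := by
    intro h0
    rw [List.dropWhile_eq_nil_iff] at h0
    obtain ⟨l, hl, hj⟩ := h
    have := h0 l hl
    simp [hj] at this
  refine ⟨_, hne, ?_⟩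
  rw [if_neg]
  simpa [List.isEmpty_iff] using hne

lemma adj_iff {n N : ℕ} {u v : W n N} : (GInf n N).Adj u v ↔ u ≠ v ∧ (rel u v ∨ rel v u) := by
  simp [GInf, SimpleGraph.fromRel_adj]

lemma adj_layer {n N : ℕ} {u v : W n N} (h : (GInf n N).Adj u v) :
    (u.2.1 : ℕ) ≤ v.2.1 + 1 ∧ (v.2.1 : ℕ) ≤ u.2.1 + 1 := by
  rw [adj_iff] at h
  obtain ⟨-, h | h⟩ := h
  · rcases h with ⟨-, -, -, h⟩ | ⟨-, -, h, -⟩
    · omega
    · rw [h]; omega
  · rcases h with ⟨-, -, -, h⟩ | ⟨-, -, h, -⟩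
    · omega
    · rw [h]; omega

lemma adj_node {n N : ℕ} {u v : W n N} (h : (GInf n N).Adj u v) :
    u.1 <:+ v.1 ∨ v.1 <:+ u.1 := by
  rw [adj_iff] at h
  obtain ⟨-, h | h⟩ := h
  · rcases h with ⟨-, -, h, -⟩ | ⟨-, -, -, h⟩
    · left; rw [h]
    · right; rw [h]; exact holder_suffix _ _
  · rcases h with ⟨-, -, h, -⟩ | ⟨-, -, -, h⟩
    · left; rw [h]
    · left; rw [h]; exact holder_suffix _ _

lemma adj_cross {n N : ℕ} {u v : W n N} (h : (GInf n N).Adj u v) {t : List (Letter n N)}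
    (hu : t <:+ u.1) (hv : ¬ t <:+ v.1) : v.2.2 = true ∧ v.1 = holder v.2.1 t := by
  rw [adj_iff] at h
  obtain ⟨-, h | h⟩ := h
  · rcases h with ⟨-, -, h, -⟩ | ⟨-, h2, h3, h⟩
    · exact absurd (h ▸ hu) hv
    · refine ⟨h2, ?_⟩
      obtain ⟨r, hr⟩ := hu
      rw [h3, ← hr] at h
      by_cases hm : ∃ l ∈ r, l.1 = v.2.1
      · obtain ⟨r', -, hr'⟩ := holder_append_of_mem v.2.1 r t hm
        rw [hr'] at h
        exact absurd ⟨r', h.symm⟩ hv
      · push Not at hm
        rw [holder_append_of_not _ _ _ hm] at h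
        exact h
  · rcases h with ⟨-, -, h, -⟩ | ⟨-, -, -, h⟩
    · exact absurd (h ▸ hu) hv
    · exact absurd (hu.trans (h ▸ holder_suffix _ _)) hv

section Expansion

variable {n N : ℕ} {V : Type*} (G : SimpleGraph V) (φ : V → W n N)

lemma walk_layer (hadj : ∀ u v, G.Adj u v → (GInf n N).Adj (φ u) (φ v)) {u v : V}
    (p : G.Walk u v) :
    ((φ u).2.1 : ℕ) ≤ (φ v).2.1 + p.length ∧ ((φ v).2.1 : ℕ) ≤ (φ u).2.1 + p.length := by
  induction p with
  | nil => simp
  | cons h p ih =>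
    have := adj_layer (hadj _ _ h)
    simp only [Walk.length_cons]
    omega

lemma walk_suffix (hadj : ∀ u v, G.Adj u v → (GInf n N).Adj (φ u) (φ v)) {S : Set V}
    {t : List (Letter n N)} (ht : ∀ y ∈ S, t.length ≤ (φ y).1.length) {u v : V}
    (p : G.Walk u v) (hp : ∀ z ∈ p.support, z ∈ S) (hu : t <:+ (φ u).1) : t <:+ (φ v).1 := by
  induction p with
  | nil => exact hu
  | @cons a b c h p ih =>
    refine ih (fun z hz => hp z (by simp [hz])) ?_
    have hb : b ∈ S := hp b (by simp)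
    rcases adj_node (hadj _ _ h) with h1 | h1
    · exact hu.trans h1
    · exact List.suffix_of_suffix_length_le hu h1 (ht b hb)

theorem expansion (hφ : Function.Injective φ)
    (hadj : ∀ u v, G.Adj u v → (GInf n N).Adj (φ u) (φ v))
    (r m : ℕ) (H : SimpleGraph (Fin m)) (B : Fin m → Set V) (x : Fin m → V)
    (hdisj : ∀ i j, i ≠ j → Disjoint (B i) (B j))
    (hrad : ∀ i, x i ∈ B i ∧ ∀ y ∈ B i, ∃ p : G.Walk (x i) y,
        p.length ≤ r ∧ ∀ z ∈ p.support, z ∈ B i)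
    (hH : ∀ i j, H.Adj i j → ∃ a ∈ B i, ∃ b ∈ B j, G.Adj a b) :
    H.edgeSet.ncard ≤ (24 * r + 9) * m := by
  classical
  have hb : ∀ i, ∃ b ∈ B i, ∀ y ∈ B i, (φ b).1.length ≤ (φ y).1.length := by
    intro i
    have hex : ∃ k, ∃ b ∈ B i, (φ b).1.length = k := ⟨_, x i, (hrad i).1, rfl⟩
    obtain ⟨b, hb, hk⟩ := Nat.find_spec hex
    refine ⟨b, hb, fun y hy => ?_⟩
    rw [hk]
    exact Nat.find_min' hex ⟨y, hy, rfl⟩
  choose b hbB hbmin using hb
  -- walks between points of a branch set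
  have hwalk : ∀ i, ∀ y ∈ B i, ∀ z ∈ B i, ∃ p : G.Walk y z,
      p.length ≤ 2 * r ∧ ∀ w ∈ p.support, w ∈ B i := by
    intro i y hy z hz
    obtain ⟨p, hp, hp'⟩ := (hrad i).2 y hy
    obtain ⟨q, hq, hq'⟩ := (hrad i).2 z hz
    refine ⟨p.reverse.append q, ?_, ?_⟩
    · rw [Walk.length_append, Walk.length_reverse]; omega
    · intro w hw
      rw [Walk.mem_support_append_iff] at hw
      rcases hw with hw | hw
      · exact hp' w (by simpa using hw)
      · exact hq' w hw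
  have hlay : ∀ i, ∀ y ∈ B i, ∀ z ∈ B i,
      ((φ y).2.1 : ℕ) ≤ (φ z).2.1 + 2 * r := by
    intro i y hy z hz
    obtain ⟨p, hp, -⟩ := hwalk i y hy z hz
    have := walk_layer G φ hadj p
    omega
  have hsuff : ∀ i, ∀ y ∈ B i, (φ (b i)).1 <:+ (φ y).1 := by
    intro i y hy
    obtain ⟨p, -, hp⟩ := hwalk i (b i) (hbB i) y hy
    exact walk_suffix G φ hadj (hbmin i) p hp List.suffix_rfl
  -- the key of an edge
  have hkey : ∀ i j, H.Adj i j → (φ (b j)).1.length ≤ (φ (b i)).1.length →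
      ∃ w ∈ B j, ((φ w).1 = (φ (b i)).1 ∨
        ((φ w).2.2 = true ∧ (φ w).1 = holder (φ w).2.1 (φ (b i)).1)) ∧
        ((φ w).2.1 : ℕ) ≤ (φ (b i)).2.1 + (4 * r + 1) ∧
        ((φ (b i)).2.1 : ℕ) ≤ (φ w).2.1 + (4 * r + 1) := by
    intro i j hij hlen
    obtain ⟨a, ha, a', ha', haa⟩ := hH i j hij
    have hta := hsuff i a ha
    have hl1 := adj_layer (hadj _ _ haa)
    have hl2 := hlay i a ha (b i) (hbB i)
    have hl3 := hlay i (b i) (hbB i) a ha
    have hfar : ∀ w ∈ B j, ((φ w).2.1 : ℕ) ≤ (φ (b i)).2.1 + (4 * r + 1) ∧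
        ((φ (b i)).2.1 : ℕ) ≤ (φ w).2.1 + (4 * r + 1) := by
      intro w hw
      have hl4 := hlay j w hw a' ha'
      have hl5 := hlay j a' ha' w hw
      omega
    by_cases h1 : (φ (b i)).1 <:+ (φ a').1
    · by_cases h2 : (φ (b i)).1 <:+ (φ (b j)).1
      · refine ⟨b j, hbB j, Or.inl ?_, hfar _ (hbB j)⟩
        exact (h2.eq_of_length_le hlen).symm
      · obtain ⟨p, -, hp⟩ := hwalk j a' ha' (b j) (hbB j)
        obtain ⟨d, hd, hd1, hd2⟩ := p.exists_boundary_dart {v | (φ (b i)).1 <:+ (φ v).1} h1 h2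
        have hdB : d.snd ∈ B j := hp _ (Walk.dart_snd_mem_support_of_mem_darts _ hd)
        exact ⟨d.snd, hdB, Or.inr (adj_cross (hadj _ _ d.adj) hd1 hd2), hfar _ hdB⟩
    · exact ⟨a', ha', Or.inr (adj_cross (hadj _ _ haa) hta h1), hfar _ ha'⟩
  -- decoding
  let P : Fin m → Fin (8 * r + 3) × Fin 3 → V → Prop := fun i k w =>
    ((φ w).2.1 : ℕ) + (4 * r + 1) = (φ (b i)).2.1 + k.1 ∧
      ((k.2 = 0 ∧ (φ w).2.2 = false ∧ (φ w).1 = (φ (b i)).1) ∨
       (k.2 = 1 ∧ (φ w).2.2 = true ∧ (φ w).1 = (φ (b i)).1) ∨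
       (k.2 = 2 ∧ (φ w).2.2 = true ∧ (φ w).1 = holder (φ w).2.1 (φ (b i)).1))
  have hPuniq : ∀ i k w w', P i k w → P i k w' → w = w' := by
    intro i k w w' hw hw'
    obtain ⟨h1, h2⟩ := hw
    obtain ⟨h1', h2'⟩ := hw'
    have hl : (φ w).2.1 = (φ w').2.1 := Fin.ext (by omega)
    apply hφ
    rcases h2 with ⟨hk, h3, h4⟩ | ⟨hk, h3, h4⟩ | ⟨hk, h3, h4⟩ <;>
    rcases h2' with ⟨hk', h3', h4'⟩ | ⟨hk', h3', h4'⟩ | ⟨hk', h3', h4'⟩ <;>
    first
    | exact absurd (hk.symm.trans hk') (by decide)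
    | exact Prod.ext (h4.trans h4'.symm) (Prod.ext hl (h3.trans h3'.symm))
    | exact Prod.ext (h4.trans (hl ▸ h4'.symm)) (Prod.ext hl (h3.trans h3'.symm))
  have hPex : ∀ i j, H.Adj i j → (φ (b j)).1.length ≤ (φ (b i)).1.length →
      ∃ k, ∃ w ∈ B j, P i k w := by
    intro i j hij hlen
    obtain ⟨w, hw, h1, h2, h3⟩ := hkey i j hij hlen
    obtain ⟨o, ho⟩ : ∃ o : Fin (8 * r + 3), ((φ w).2.1 : ℕ) + (4 * r + 1) = (φ (b i)).2.1 + o :=
      ⟨⟨(φ w).2.1 + (4 * r + 1) - (φ (b i)).2.1, by omega⟩, by simp only; omega⟩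
    rcases h1 with h1 | h1
    · cases hk : (φ w).2.2 with
      | false => exact ⟨(o, 0), w, hw, ho, Or.inl ⟨rfl, hk, h1⟩⟩
      | true => exact ⟨(o, 1), w, hw, ho, Or.inr (Or.inl ⟨rfl, hk, h1⟩)⟩
    · exact ⟨(o, 2), w, hw, ho, Or.inr (Or.inr ⟨rfl, h1.1, h1.2⟩)⟩
  let F : Fin m × (Fin (8 * r + 3) × Fin 3) → Sym2 (Fin m) := fun q =>
    if h : ∃ j, ∃ w ∈ B j, P q.1 q.2 w then s(q.1, h.choose) else s(q.1, q.1)
  have hF : H.edgeSet ⊆ Set.range F := by
    intro e he
    induction e using Sym2.ind with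
    | _ i j =>
      rw [SimpleGraph.mem_edgeSet] at he
      have key : ∀ i j, H.Adj i j → (φ (b j)).1.length ≤ (φ (b i)).1.length →
          s(i, j) ∈ Set.range F := by
        intro i j hij hlen
        obtain ⟨k, w, hw, hP⟩ := hPex i j hij hlen
        have hex : ∃ j, ∃ w ∈ B j, P i k w := ⟨j, w, hw, hP⟩
        refine ⟨(i, k), ?_⟩
        have hFv : F (i, k) = s(i, hex.choose) := by
          simp only [F]
          rw [dif_pos hex]
        rw [hFv]
        obtain ⟨w', hw', hP'⟩ := hex.choose_spec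
        have hww : w' = w := hPuniq i k _ _ hP' hP
        have hj : hex.choose = j := by
          by_contra hne
          exact Set.disjoint_left.mp (hdisj _ _ hne) hw' (hww ▸ hw)
        rw [hj]
      rcases le_total (φ (b j)).1.length (φ (b i)).1.length with h | h
      · exact key i j he h
      · rw [Sym2.eq_swap]
        exact key j i he.symm h
  calc H.edgeSet.ncard ≤ (Set.range F).ncard := Set.ncard_le_ncard hF (Set.finite_range F)
    _ ≤ Nat.card (Fin m × (Fin (8 * r + 3) × Fin 3)) := by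
        rw [← Set.image_univ]
        calc (F '' Set.univ).ncard ≤ (Set.univ : Set (Fin m × (Fin (8 * r + 3) × Fin 3))).ncard :=
              Set.ncard_image_le
          _ = _ := Set.ncard_univ _
    _ = (24 * r + 9) * m := by
        simp [Nat.card_eq_fintype_card]
        ring

end Expansion

end Run7.h50
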