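import Mathlib
import Pool.Agent.Run7.h50.Rows

set_option autoImplicit false

namespace Run7.h50

open SimpleGraph

/-- `f` has no repetitively coloured path all of whose nodes have length at most `D`. -/
def NoRep {n N : ℕ} {C : Type} (D : ℕ) (f : W n N → C) : Prop :=
  ∀ l₁ l₂ : List (W n N), l₁ ≠ [] → l₁.length = l₂.length →
    (l₁ ++ l₂).IsChain (GInf n N).Adj → (l₁ ++ l₂).Nodup →
    (∀ v ∈ l₁ ++ l₂, v.1.length ≤ D) → l₁.map f ≠ l₂.map f

/-- The code of a state: the colours of its row and of the current holders. -/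
def code {n N : ℕ} {C : Type} (f : W n N → C) (s : List (Letter n N)) : Fin n → C × C :=
  fun j => (f (s, j, false), f (holder j s, j, true))

/-- Codes of the states above `g` in which the id `a` is never renewed and `b` is not renewed
(first component), respectively is renewed (second component). -/
def Phi {n N : ℕ} {C : Type} (D : ℕ) (f : W n N → C) (a : Fin n) (g : List (Letter n N)) :
    (Fin n → Set (Fin n → C × C)) × (Fin n → Set (Fin n → C × C)) :=
  (fun b => {κ | ∃ r : List (Letter n N), (∀ l ∈ r, l.1 ≠ a) ∧ (∀ l ∈ r, l.1 ≠ b) ∧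
      (r ++ g).length ≤ D ∧ code f (r ++ g) = κ},
   fun b => {κ | ∃ r : List (Letter n N), (∀ l ∈ r, l.1 ≠ a) ∧ (∃ l ∈ r, l.1 = b) ∧
      (r ++ g).length ≤ D ∧ code f (r ++ g) = κ})

/-- consecutive layers -/
def step {n : ℕ} (i j : Fin n) : Prop := (i : ℕ) + 1 = j ∨ (j : ℕ) + 1 = i

lemma step_symm {n : ℕ} {i j : Fin n} (h : step i j) : step j i := by
  unfold step at *; omega

lemma exists_seg_up {n : ℕ} : ∀ (d : ℕ) (b a : Fin n), (b : ℕ) + d = a →
    ∃ S : List (Fin n), ∃ hS : S ≠ [], S.head hS = b ∧ S.getLast hS = a ∧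
      S.IsChain step ∧ S.Nodup ∧ ∀ x ∈ S, b ≤ x := by
  intro d
  induction d with
  | zero =>
    intro b a h
    have : b = a := Fin.ext (by omega)
    subst this
    exact ⟨[b], by simp, by simp, by simp, by simp, by simp, by simp⟩
  | succ d ih =>
    intro b a h
    have hb : (b : ℕ) + 1 < n := by have := a.2; omega
    obtain ⟨S, hS, h1, h2, h3, h4, h5⟩ := ih ⟨(b : ℕ) + 1, hb⟩ a (by simp only; omega)
    refine ⟨b :: S, by simp, by simp, ?_, ?_, ?_, ?_⟩
    · rw [List.getLast_cons hS, h2]
    · cases S with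
      | nil => exact absurd rfl hS
      | cons c S =>
        simp only [List.head_cons] at h1
        refine List.IsChain.cons_cons ?_ h3
        left
        rw [h1]
    · rw [List.nodup_cons]
      refine ⟨fun hb' => ?_, h4⟩
      have := h5 b hb'
      rw [Fin.le_def] at this
      simp only at this
      omega
    · intro x hx
      rw [List.mem_cons] at hx
      rcases hx with rfl | hx
      · exact le_refl _
      · have := h5 x hx
        rw [Fin.le_def] at this ⊢
        simp only at this
        omega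

lemma exists_seg {n : ℕ} (b a : Fin n) :
    ∃ S : List (Fin n), ∃ hS : S ≠ [], S.head hS = b ∧ S.getLast hS = a ∧
      S.IsChain step ∧ S.Nodup := by
  rcases le_total b a with h | h
  · obtain ⟨S, hS, h1, h2, h3, h4, -⟩ := exists_seg_up ((a : ℕ) - b) b a (by
      rw [Fin.le_def] at h; omega)
    exact ⟨S, hS, h1, h2, h3, h4⟩
  · obtain ⟨S, hS, h1, h2, h3, h4, -⟩ := exists_seg_up ((b : ℕ) - a) a b (by
      rw [Fin.le_def] at h; omega)
    refine ⟨S.reverse, by simpa using hS, ?_, ?_, ?_, ?_⟩
    · rw [List.head_reverse]; exact h2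
    · rw [List.getLast_reverse]; exact h1
    · rw [List.isChain_reverse]
      exact h3.imp fun x y h => step_symm h
    · exact List.nodup_reverse.mpr h4

lemma adj_row {n N : ℕ} (s : List (Letter n N)) {i j : Fin n} (h : step i j) :
    (GInf n N).Adj (s, i, false) (s, j, false) := by
  rw [adj_iff]
  have hne : i ≠ j := by
    rintro rfl
    unfold step at h; omega
  refine ⟨fun h' => hne ?_, ?_⟩
  · simpa using h'
  · rcases h with h | h
    · left; left; exact ⟨rfl, rfl, rfl, h⟩
    · right; left; exact ⟨rfl, rfl, rfl, h⟩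

lemma adj_hub {n N : ℕ} (s : List (Letter n N)) (i : Fin n) :
    (GInf n N).Adj (s, i, false) (holder i s, i, true) := by
  rw [adj_iff]
  refine ⟨fun h => ?_, Or.inl (Or.inr ⟨rfl, rfl, rfl, rfl⟩)⟩
  simp at h

/-- a row segment -/
def row {n N : ℕ} (s : List (Letter n N)) (S : List (Fin n)) : List (W n N) :=
  S.map (fun j => (s, j, false))

lemma row_chain {n N : ℕ} (s : List (Letter n N)) {S : List (Fin n)} (h : S.IsChain step) :
    (row s S).IsChain (GInf n N).Adj := by
  unfold row
  rw [List.isChain_map]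
  exact h.imp fun x y hxy => adj_row s hxy

lemma mem_row {n N : ℕ} {s : List (Letter n N)} {S : List (Fin n)} {v : W n N}
    (h : v ∈ row s S) : v.1 = s ∧ v.2.2 = false := by
  unfold row at h
  rw [List.mem_map] at h
  obtain ⟨j, -, rfl⟩ := h
  exact ⟨rfl, rfl⟩

lemma row_nodup {n N : ℕ} (s : List (Letter n N)) {S : List (Fin n)} (h : S.Nodup) :
    (row s S).Nodup := by
  unfold row
  refine h.map ?_
  intro a b hab
  simpa using hab

/-- a hub, a row segment of the state `s` from the layer of the hub, then the next hub and the rest -/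
lemma chain_seg {n N : ℕ} (s : List (Letter n N)) {S : List (Fin n)} (hS : S ≠ [])
    (hc : S.IsChain step) {b a : Fin n} (hb : S.head hS = b) (ha : S.getLast hS = a)
    {u v : W n N} (hu : u = (holder b s, b, true)) (hv : v = (holder a s, a, true))
    {L : List (W n N)} (hL : (v :: L).IsChain (GInf n N).Adj) :
    (u :: (row s S ++ v :: L)).IsChain (GInf n N).Adj := by
  have hrow : row s S ≠ [] := by simpa [row] using hS
  have hcat : (row s S ++ v :: L).IsChain (GInf n N).Adj := by
    rw [List.isChain_append]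
    refine ⟨row_chain s hc, hL, ?_⟩
    intro x hx y hy
    have hx' : x = (s, a, false) := by
      rw [List.getLast?_eq_getLast_of_ne_nil hrow] at hx
      simp only [Option.mem_def, Option.some.injEq] at hx
      rw [← hx]
      simp only [row, List.getLast_map, ha]
    have hy' : y = v := by simpa using hy.symm
    rw [hx', hy', hv]
    exact adj_hub s a
  rw [List.isChain_cons]
  refine ⟨?_, hcat⟩
  intro y hy
  have hy' : y = (s, b, false) := by
    rw [List.head?_append_of_ne_nil _ hrow] at hy
    rw [List.head?_eq_some_head hrow] at hy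
    simp only [Option.mem_def, Option.some.injEq] at hy
    rw [← hy]
    simp only [row, List.head_map, hb]
  rw [hy', hu]
  exact (adj_hub s b).symm

lemma chain_seg_end {n N : ℕ} (s : List (Letter n N)) {S : List (Fin n)} (hS : S ≠ [])
    (hc : S.IsChain step) {b : Fin n} (hb : S.head hS = b)
    {u : W n N} (hu : u = (holder b s, b, true)) :
    (u :: row s S).IsChain (GInf n N).Adj := by
  have hrow : row s S ≠ [] := by simpa [row] using hS
  rw [List.isChain_cons]
  refine ⟨?_, row_chain s hc⟩
  intro y hy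
  have hy' : y = (s, b, false) := by
    rw [List.head?_eq_some_head hrow] at hy
    simp only [Option.mem_def, Option.some.injEq] at hy
    rw [← hy]
    simp only [row, List.head_map, hb]
  rw [hy', hu]
  exact (adj_hub s b).symm

/-- The conflict lemma. If `(a, i) :: p` and its twin `(a, i') :: p` have the same `Phi`, a state
above `(a, i) :: p` in which `b` is not renewed and one in which `b` is renewed have different codes
(the id `a` being renewed in neither). -/
theorem conflict {n N : ℕ} {C : Type} {D : ℕ} {f : W n N → C} (hf : NoRep D f)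
    {a b : Fin n} (hab : a ≠ b) {p : List (Letter n N)} {i i' : Fin N} (hii : i ≠ i')
    (hPhi : Phi D f a ((a, i) :: p) = Phi D f a ((a, i') :: p))
    {r0 r1 : List (Letter n N)} (h0a : ∀ l ∈ r0, l.1 ≠ a) (h0b : ∀ l ∈ r0, l.1 ≠ b)
    (h1a : ∀ l ∈ r1, l.1 ≠ a) (h1b : ∃ l ∈ r1, l.1 = b)
    (hl0 : (r0 ++ (a, i) :: p).length ≤ D) (hl1 : (r1 ++ (a, i) :: p).length ≤ D) :
    code f (r0 ++ (a, i) :: p) ≠ code f (r1 ++ (a, i) :: p) := by
  intro hcode
  -- the twins
  have e1 : ∃ r : List (Letter n N), (∀ l ∈ r, l.1 ≠ a) ∧ (∀ l ∈ r, l.1 ≠ b) ∧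
      (r ++ (a, i') :: p).length ≤ D ∧
      code f (r ++ (a, i') :: p) = code f (r0 ++ (a, i) :: p) := by
    have : code f (r0 ++ (a, i) :: p) ∈ (Phi D f a ((a, i) :: p)).1 b := ⟨r0, h0a, h0b, hl0, rfl⟩
    rw [hPhi] at this
    exact this
  have e2 : ∃ r : List (Letter n N), (∀ l ∈ r, l.1 ≠ a) ∧ (∃ l ∈ r, l.1 = b) ∧
      (r ++ (a, i') :: p).length ≤ D ∧
      code f (r ++ (a, i') :: p) = code f (r0 ++ (a, i) :: p) := by
    have : code f (r0 ++ (a, i) :: p) ∈ (Phi D f a ((a, i) :: p)).2 b :=
      ⟨r1, h1a, h1b, hl1, hcode.symm⟩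
    rw [hPhi] at this
    exact this
  obtain ⟨q0, g0a, g0b, gl0, gc0⟩ := e1
  obtain ⟨q1, g1a, g1b, gl1, gc1⟩ := e2
  -- names
  set g := (a, i) :: p with hg
  set g' := (a, i') :: p with hg'
  have hgg : g ≠ g' := by
    rw [hg, hg']
    intro h
    apply hii
    simpa using h
  have hglen : g.length = g'.length := by rw [hg, hg']; simp
  set κ := code f (r0 ++ g) with hκ
  -- holders
  have Ha0 : holder a (r0 ++ g) = g := by
    rw [holder_append_of_not _ _ _ h0a, hg, holder_cons_self]
  have Ha1 : holder a (r1 ++ g) = g := by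
    rw [holder_append_of_not _ _ _ h1a, hg, holder_cons_self]
  have Ha0' : holder a (q0 ++ g') = g' := by
    rw [holder_append_of_not _ _ _ g0a, hg', holder_cons_self]
  have Ha1' : holder a (q1 ++ g') = g' := by
    rw [holder_append_of_not _ _ _ g1a, hg', holder_cons_self]
  have Hb0 : holder b (r0 ++ g) = holder b p := by
    rw [holder_append_of_not _ _ _ h0b, hg, holder_cons_ne hab]
  have Hb0' : holder b (q0 ++ g') = holder b p := by
    rw [holder_append_of_not _ _ _ g0b, hg', holder_cons_ne hab]
  obtain ⟨r', hr', Hb1⟩ := holder_append_of_mem b r1 g h1b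
  have hplen : (holder b p).length ≤ p.length := (holder_suffix b p).length_le
  have hglen1 : g.length = p.length + 1 := by rw [hg]; simp
  have hz1 : g.length < (holder b (r1 ++ g)).length := by
    rw [Hb1, List.length_append]
    have := List.length_pos_iff.mpr hr'
    omega
  -- the four states are distinct
  have hsuf : ∀ r q : List (Letter n N), r ++ g ≠ q ++ g' := by
    intro r q h
    exact hgg (List.append_inj' h hglen).2
  have hrr : r0 ++ g ≠ r1 ++ g := by
    intro h
    have := (List.append_inj' h rfl).1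
    obtain ⟨l, hl, hlb⟩ := h1b
    exact h0b l (this ▸ hl) hlb
  have hqq : q0 ++ g' ≠ q1 ++ g' := by
    intro h
    have := (List.append_inj' h rfl).1
    obtain ⟨l, hl, hlb⟩ := g1b
    exact g0b l (this ▸ hl) hlb
  -- the segment from layer b to layer a
  obtain ⟨S, hS, hSb, hSa, hSc, hSn⟩ := exists_seg b a
  have hR : S.reverse ≠ [] := by simpa using hS
  have hRa : S.reverse.head hR = a := by rw [List.head_reverse]; exact hSa
  have hRc : S.reverse.IsChain step := by
    rw [List.isChain_reverse]
    exact hSc.imp fun x y h => step_symm h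
  have hRn : S.reverse.Nodup := List.nodup_reverse.mpr hSn
  have hRb : S.reverse.getLast hR = b := by rw [List.getLast_reverse]; exact hSb
  -- the hubs
  let z1 : W n N := (holder b (r1 ++ g), b, true)
  let y : W n N := (g, a, true)
  let z0 : W n N := (holder b p, b, true)
  let y' : W n N := (g', a, true)
  have c4 : (y' :: row (q1 ++ g') S.reverse).IsChain (GInf n N).Adj :=
    chain_seg_end (q1 ++ g') hR hRc hRa (by rw [Ha1'])
  have c3 : (z0 :: (row (q0 ++ g') S ++ y' :: row (q1 ++ g') S.reverse)).IsChain (GInf n N).Adj :=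
    chain_seg (q0 ++ g') hS hSc hSb hSa (by rw [Hb0']) (by rw [Ha0']) c4
  have c2 : (y :: (row (r0 ++ g) S.reverse ++ z0 :: (row (q0 ++ g') S ++
      y' :: row (q1 ++ g') S.reverse))).IsChain (GInf n N).Adj :=
    chain_seg (r0 ++ g) hR hRc hRa hRb (by rw [Ha0]) (by rw [Hb0]) c3
  have c1 : (z1 :: (row (r1 ++ g) S ++ y :: (row (r0 ++ g) S.reverse ++ z0 ::
      (row (q0 ++ g') S ++ y' :: row (q1 ++ g') S.reverse)))).IsChain (GInf n N).Adj :=
    chain_seg (r1 ++ g) hS hSc hSb hSa rfl (by rw [Ha1]) c2
  let l₁ : List (W n N) := z1 :: (row (r1 ++ g) S ++ y :: row (r0 ++ g) S.reverse)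
  let l₂ : List (W n N) := z0 :: (row (q0 ++ g') S ++ y' :: row (q1 ++ g') S.reverse)
  have hl12 : l₁ ++ l₂ = z1 :: (row (r1 ++ g) S ++ y :: (row (r0 ++ g) S.reverse ++ z0 ::
      (row (q0 ++ g') S ++ y' :: row (q1 ++ g') S.reverse))) := by
    simp [l₁, l₂]
  refine hf l₁ l₂ (by simp [l₁]) ?_ (by rw [hl12]; exact c1) ?_ ?_ ?_
  · simp [l₁, l₂, row]
  · -- nodup
    rw [hl12]
    have hubrow : ∀ (h : W n N) (s : List (Letter n N)) (T : List (Fin n)), h.2.2 = true →
        h ∉ row s T := by
      intro h s T hh hmem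
      have := (mem_row hmem).2
      rw [hh] at this
      exact absurd this (by decide)
    have rowrow : ∀ (v : W n N) (s s' : List (Letter n N)) (T T' : List (Fin n)), s ≠ s' →
        v ∈ row s T → v ∉ row s' T' := by
      intro v s s' T T' hss h h'
      exact hss ((mem_row h).1.symm.trans (mem_row h').1)
    have z1y : z1 ≠ y := fun h => by
      have := congrArg (fun v : W n N => v.1.length) h
      simp only [z1, y] at this
      omega
    have z1z0 : z1 ≠ z0 := fun h => by
      have := congrArg (fun v : W n N => v.1.length) h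
      simp only [z1, z0] at this
      omega
    have z1y' : z1 ≠ y' := fun h => by
      have := congrArg (fun v : W n N => v.1.length) h
      simp only [z1, y'] at this
      omega
    have yz0 : y ≠ z0 := fun h => by
      have := congrArg (fun v : W n N => v.1.length) h
      simp only [y, z0] at this
      omega
    have yy' : y ≠ y' := fun h => by
      have := congrArg (fun v : W n N => v.1) h
      exact hgg this
    have z0y' : z0 ≠ y' := fun h => by
      have := congrArg (fun v : W n N => v.1.length) h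
      simp only [y', z0] at this
      omega
    have n1 := row_nodup (r1 ++ g) hSn
    have n2 := row_nodup (r0 ++ g) hRn
    have n3 := row_nodup (q0 ++ g') hSn
    have n4 := row_nodup (q1 ++ g') hRn
    simp only [List.nodup_cons, List.nodup_append, List.mem_append, List.mem_cons, not_or]
    refine ⟨⟨hubrow _ _ _ rfl, z1y, hubrow _ _ _ rfl, z1z0, hubrow _ _ _ rfl, z1y',
      hubrow _ _ _ rfl⟩, n1, ⟨⟨hubrow _ _ _ rfl, yz0, hubrow _ _ _ rfl, yy', hubrow _ _ _ rfl⟩,
      n2, ⟨⟨hubrow _ _ _ rfl, z0y', hubrow _ _ _ rfl⟩, n3, ⟨hubrow _ _ _ rfl, n4⟩, ?_⟩, ?_⟩, ?_⟩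
    · rintro v hv w (rfl | hw) rfl
      · exact hubrow _ _ _ rfl hv
      · exact rowrow _ _ _ _ _ hqq hv hw
    · rintro v hv w (rfl | hw | rfl | hw) rfl
      · exact hubrow _ _ _ rfl hv
      · exact rowrow _ _ _ _ _ (hsuf _ _) hv hw
      · exact hubrow _ _ _ rfl hv
      · exact rowrow _ _ _ _ _ (hsuf _ _) hv hw
    · rintro v hv w (rfl | hw | rfl | hw | rfl | hw) rfl
      · exact hubrow _ _ _ rfl hv
      · exact rowrow _ _ _ _ _ hrr.symm hv hw
      · exact hubrow _ _ _ rfl hv
      · exact rowrow _ _ _ _ _ (hsuf _ _) hv hw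
      · exact hubrow _ _ _ rfl hv
      · exact rowrow _ _ _ _ _ (hsuf _ _) hv hw
  · -- lengths
    rw [hl12]
    have hgD : g.length ≤ D := by
      rw [List.length_append] at hl0; omega
    intro v hv
    simp only [List.mem_cons, List.mem_append] at hv
    rcases hv with rfl | hv | rfl | hv | rfl | hv | rfl | hv
    · exact (holder_suffix b (r1 ++ g)).length_le.trans hl1
    · rw [(mem_row hv).1]; exact hl1
    · exact hgD
    · rw [(mem_row hv).1]; exact hl0
    · simp only [z0]; omega
    · rw [(mem_row hv).1]; exact gl0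
    · simp only [y']; omega
    · rw [(mem_row hv).1]; exact gl1
  · -- colours
    have k1 : ∀ j, f (r1 ++ g, j, false) = (κ j).1 := fun j => by rw [hcode]; rfl
    have k0 : ∀ j, f (r0 ++ g, j, false) = (κ j).1 := fun j => rfl
    have k0' : ∀ j, f (q0 ++ g', j, false) = (κ j).1 := fun j => by rw [← gc0]; rfl
    have k1' : ∀ j, f (q1 ++ g', j, false) = (κ j).1 := fun j => by rw [← gc1]; rfl
    have fz1 : f z1 = (κ b).2 := by rw [hcode]; rfl
    have fz0 : f z0 = (κ b).2 := by
      have : (κ b).2 = f (holder b (r0 ++ g), b, true) := rfl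
      rw [this, Hb0]
    have fy : f y = (κ a).2 := by
      have : (κ a).2 = f (holder a (r0 ++ g), a, true) := rfl
      rw [this, Ha0]
    have fy' : f y' = (κ a).2 := by
      have : (κ a).2 = f (holder a (q0 ++ g'), a, true) := by rw [← gc0]; rfl
      rw [this, Ha0']
    simp only [l₁, l₂, List.map_cons, List.map_append, row, List.map_map, Function.comp_def,
      k1, k0, k0', k1', fz1, fz0, fy, fy']

end Run7.h50
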