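import Mathlib
import Pool.Agent.Run7.h50.Colour

set_option autoImplicit false

namespace Run7.h50

open SimpleGraph

/-- The type of values of `Phi`. -/
abbrev PhiT (n : ℕ) (C : Type) := (Fin n → Set (Fin n → C × C)) × (Fin n → Set (Fin n → C × C))

lemma exists_twin {n N : ℕ} {C : Type} [Finite C] (hN : Nat.card (PhiT n C) < N) (D : ℕ)
    (f : W n N → C) (a : Fin n) (p : List (Letter n N)) :
    ∃ i i' : Fin N, i ≠ i' ∧ Phi D f a ((a, i) :: p) = Phi D f a ((a, i') :: p) := by
  classical
  have : Finite (PhiT n C) := inferInstance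
  let _inst : Fintype (PhiT n C) := Fintype.ofFinite _
  have : Fintype.card (PhiT n C) < Fintype.card (Fin N) := by
    rw [← Nat.card_eq_fintype_card, Fintype.card_fin]; exact hN
  obtain ⟨i, i', h, h'⟩ := Fintype.exists_ne_map_eq_of_card_lt
    (fun i : Fin N => Phi D f a ((a, i) :: p)) this
  exact ⟨i, i', h, h'⟩

/-- `WW k = 2 ^ k * k !` -/
def WW : ℕ → ℕ
  | 0 => 1
  | k + 1 => (2 * (k + 1)) * WW k

lemma WW_eq (k : ℕ) : WW k = 2 ^ k * k.factorial := by
  induction k with
  | zero => simp [WW]
  | succ k ih => rw [WW, ih, Nat.factorial_succ, pow_succ]; ring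

theorem count {n N : ℕ} {C : Type} [Finite C] {D : ℕ} {f : W n N → C} (hf : NoRep D f)
    (hN : Nat.card (PhiT n C) < N) :
    ∀ (k : ℕ) (A : Finset (Fin n)), A.card = 2 * k → ∀ a, a ∉ A → ∀ (p : List (Letter n N))
      (i i' : Fin N), i ≠ i' → Phi D f a ((a, i) :: p) = Phi D f a ((a, i') :: p) →
      p.length + 1 + k * k ≤ D →
      ∃ S : Set (Fin n → C × C), WW k ≤ S.ncard ∧ ∀ κ ∈ S, ∃ r : List (Letter n N),
        (∀ l ∈ r, l.1 ∈ A) ∧ (r ++ (a, i) :: p).length ≤ D ∧ code f (r ++ (a, i) :: p) = κ := by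
  classical
  have : Finite (Fin n → C × C) := inferInstance
  intro k
  induction k with
  | zero =>
    intro A hA a ha p i i' hii hPhi hlen
    refine ⟨{code f ((a, i) :: p)}, by simp [WW], ?_⟩
    intro κ hκ
    rw [Set.mem_singleton_iff] at hκ
    exact ⟨[], by simp, by simp only [List.nil_append, List.length_cons]; omega, by simp [hκ]⟩
  | succ k ih =>
    intro A hA a ha p i i' hii hPhi hlen
    have hstep : ∀ b' ∈ A, ∃ S : Set (Fin n → C × C), WW k ≤ S.ncard ∧ ∀ κ ∈ S,
        ∃ r : List (Letter n N), (∀ l ∈ r, l.1 ∈ A ∧ l.1 ≠ b') ∧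
          (∀ c ∈ A, c ≠ b' → ∃ l ∈ r, l.1 = c) ∧
          (r ++ (a, i) :: p).length ≤ D ∧ code f (r ++ (a, i) :: p) = κ := by
      intro b' hb'
      have h1 : (A.erase b').card = 2 * k + 1 := by
        rw [Finset.card_erase_of_mem hb', hA]; omega
      obtain ⟨b, hb⟩ : (A.erase b').Nonempty := by
        rw [← Finset.card_pos, h1]; omega
      have h2 : ((A.erase b').erase b).card = 2 * k := by
        rw [Finset.card_erase_of_mem hb, h1]; omega
      set A' := (A.erase b').erase b with hA'
      set r' : List (Letter n N) := A'.toList.map (fun c => (c, i)) with hr'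
      have hr'len : r'.length = 2 * k := by
        rw [hr', List.length_map, Finset.length_toList, h2]
      have hbA' : b ∉ A' := Finset.notMem_erase _ _
      obtain ⟨j, j', hjj, hPhi'⟩ := exists_twin hN D f b (r' ++ (a, i) :: p)
      have hlen' : (r' ++ (a, i) :: p).length + 1 + k * k ≤ D := by
        rw [List.length_append, List.length_cons, hr'len]
        nlinarith
      obtain ⟨S, hS, hS'⟩ := ih A' h2 b hbA' (r' ++ (a, i) :: p) j j' hjj hPhi' hlen'
      refine ⟨S, hS, ?_⟩
      intro κ hκ
      obtain ⟨r'', h3, h4, h5⟩ := hS' κ hκ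
      have happ : (r'' ++ (b, j) :: r') ++ (a, i) :: p = r'' ++ (b, j) :: (r' ++ (a, i) :: p) := by
        simp
      refine ⟨r'' ++ (b, j) :: r', ?_, ?_, ?_, ?_⟩
      · intro l hl
        rw [List.mem_append, List.mem_cons] at hl
        rcases hl with hl | rfl | hl
        · have := h3 l hl
          rw [hA', Finset.mem_erase, Finset.mem_erase] at this
          exact ⟨this.2.2, this.2.1⟩
        · rw [Finset.mem_erase] at hb
          exact ⟨hb.2, hb.1⟩
        · rw [hr', List.mem_map] at hl
          obtain ⟨c, hc, rfl⟩ := hl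
          rw [Finset.mem_toList, hA', Finset.mem_erase, Finset.mem_erase] at hc
          exact ⟨hc.2.2, hc.2.1⟩
      · intro c hc hcb'
        by_cases hcb : c = b
        · exact ⟨(b, j), by simp, hcb.symm⟩
        · refine ⟨(c, i), ?_, rfl⟩
          rw [List.mem_append, List.mem_cons]
          right; right
          rw [hr', List.mem_map]
          refine ⟨c, ?_, rfl⟩
          rw [Finset.mem_toList, hA', Finset.mem_erase, Finset.mem_erase]
          exact ⟨hcb, hcb', hc⟩
      · rw [happ]; exact h4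
      · rw [happ]; exact h5
    choose! S hS1 hS2 using hstep
    refine ⟨⋃ b' ∈ A, S b', ?_, ?_⟩
    · have hdisj : (A : Set (Fin n)).PairwiseDisjoint S := by
        intro b' hb' b'' hb'' hne
        rw [Function.onFun, Set.disjoint_left]
        intro κ hκ' hκ''
        obtain ⟨r0, h1, h2, h3, h4⟩ := hS2 b' hb' κ hκ'
        obtain ⟨r1, h1', h2', h3', h4'⟩ := hS2 b'' hb'' κ hκ''
        have hab' : a ≠ b' := fun h => ha (h ▸ hb')
        refine conflict hf hab' hii hPhi (r0 := r0) (r1 := r1) ?_ ?_ ?_ ?_ h3 h3' (h4.trans h4'.symm)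
        · intro l hl h; exact ha (h ▸ (h1 l hl).1)
        · intro l hl; exact (h1 l hl).2
        · intro l hl h; exact ha (h ▸ (h1' l hl).1)
        · exact h2' b' hb' hne
      have hcard : (⋃ b' ∈ A, S b').ncard = ∑ b' ∈ A, (S b').ncard := by
        have hfin : ∀ b', (S b').Finite := fun b' => Set.toFinite _
        have h1 : (⋃ b' ∈ A, S b') = ((A.biUnion fun b' => (hfin b').toFinset : Finset _) : Set _) := by
          ext κ
          simp
        rw [h1, Set.ncard_coe_finset, Finset.card_biUnion]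
        · refine Finset.sum_congr rfl fun b' _ => ?_
          rw [Set.ncard_eq_toFinset_card _ (hfin b')]
        · intro b' hb' b'' hb'' hne
          rw [Function.onFun, Set.Finite.disjoint_toFinset]
          exact hdisj hb' hb'' hne
      rw [hcard]
      calc WW (k + 1) = ∑ _b' ∈ A, WW k := by
            rw [Finset.sum_const, hA, smul_eq_mul, WW]
        _ ≤ _ := Finset.sum_le_sum fun b' hb' => hS1 b' hb'
    · intro κ hκ
      simp only [Set.mem_iUnion] at hκ
      obtain ⟨b', hb', hκ⟩ := hκ
      obtain ⟨r, h1, -, h3, h4⟩ := hS2 b' hb' κ hκ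
      exact ⟨r, fun l hl => (h1 l hl).1, h3, h4⟩

/-- Few colours do not suffice. -/
theorem count_bound {k N : ℕ} {C : Type} [Finite C] {D : ℕ} {f : W (2 * k + 1) N → C}
    (hf : NoRep D f) (hN : Nat.card (PhiT (2 * k + 1) C) < N) (hD : k * k + 1 ≤ D) :
    2 ^ k * k.factorial ≤ (Nat.card C * Nat.card C) ^ (2 * k + 1) := by
  classical
  obtain ⟨i, i', hii, hPhi⟩ := exists_twin hN D f (0 : Fin (2 * k + 1)) []
  obtain ⟨S, hS, -⟩ := count hf hN k (Finset.univ.erase (0 : Fin (2 * k + 1)))
    (by rw [Finset.card_erase_of_mem (Finset.mem_univ _), Finset.card_univ, Fintype.card_fin]; omega)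
    0 (Finset.notMem_erase _ _) [] i i' hii hPhi (by simp only [List.length_nil]; omega)
  rw [← WW_eq]
  refine hS.trans ?_
  have : Finite (Fin (2 * k + 1) → C × C) := inferInstance
  calc S.ncard ≤ Nat.card (Fin (2 * k + 1) → C × C) := by
        rw [← Set.ncard_univ]; exact Set.ncard_le_ncard (Set.subset_univ _)
    _ = _ := by rw [Nat.card_fun, Nat.card_prod, Nat.card_fin]

/-- for every number of colours some `k` violates the bound -/
lemma exists_big (K : ℕ) : ∃ k : ℕ, (K * K) ^ (2 * k + 1) < 2 ^ k * k.factorial := by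
  have h := Nat.eventually_mul_pow_lt_factorial_sub (K * K) ((K * K) * (K * K)) 0
  obtain ⟨k, hk⟩ := h.exists
  refine ⟨k, ?_⟩
  have h1 : (K * K) ^ (2 * k + 1) = (K * K) * ((K * K) * (K * K)) ^ k := by
    rw [pow_succ, pow_mul]; ring
  rw [h1]
  calc _ < (k - 0).factorial := hk
    _ = k.factorial := by simp
    _ ≤ 2 ^ k * k.factorial := Nat.le_mul_of_pos_left _ (by positivity)

end Run7.h50
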