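import Mathlib
import Pool.Agent.Run7.h50.Count

set_option autoImplicit false

namespace Run7.h50

/-- The abstract counting step. `code` assigns to every state a value in a finite type; `T a p i`
is any property of the letter `(a, i)` appended to the state `p` such that every `a`, `p` has such an
`i`, and such that above `(a, i) :: p` the states in which `b` is not renewed and those in which
`b` is renewed never have the same code (the id `a` being renewed in neither). Then at least
`2 ^ k * k !` codes occur above `(a, i) :: p` as soon as `2 k` other ids are available. -/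
theorem count_abs {n N : ℕ} {K : Type} [Finite K] {D : ℕ} (code : List (Letter n N) → K)
    (T : Fin n → List (Letter n N) → Fin N → Prop)
    (hT : ∀ a p, ∃ i, T a p i)
    (hconf : ∀ (a b : Fin n) (p : List (Letter n N)) (i : Fin N), a ≠ b → T a p i →
      ∀ r0 r1 : List (Letter n N), (∀ l ∈ r0, l.1 ≠ a) → (∀ l ∈ r0, l.1 ≠ b) →
        (∀ l ∈ r1, l.1 ≠ a) → (∃ l ∈ r1, l.1 = b) →
        (r0 ++ (a, i) :: p).length ≤ D → (r1 ++ (a, i) :: p).length ≤ D →
        code (r0 ++ (a, i) :: p) ≠ code (r1 ++ (a, i) :: p)) :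
    ∀ (k : ℕ) (A : Finset (Fin n)), A.card = 2 * k → ∀ a, a ∉ A → ∀ (p : List (Letter n N))
      (i : Fin N), T a p i → p.length + 1 + k * k ≤ D →
      ∃ S : Set K, WW k ≤ S.ncard ∧ ∀ κ ∈ S, ∃ r : List (Letter n N),
        (∀ l ∈ r, l.1 ∈ A) ∧ (r ++ (a, i) :: p).length ≤ D ∧ code (r ++ (a, i) :: p) = κ := by
  classical
  intro k
  induction k with
  | zero =>
    intro A hA a ha p i hTi hlen
    refine ⟨{code ((a, i) :: p)}, by simp [WW], ?_⟩
    intro κ hκ
    rw [Set.mem_singleton_iff] at hκ
    exact ⟨[], by simp, by simp only [List.nil_append, List.length_cons]; omega, by simp [hκ]⟩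
  | succ k ih =>
    intro A hA a ha p i hTi hlen
    have hstep : ∀ b' ∈ A, ∃ S : Set K, WW k ≤ S.ncard ∧ ∀ κ ∈ S,
        ∃ r : List (Letter n N), (∀ l ∈ r, l.1 ∈ A ∧ l.1 ≠ b') ∧
          (∀ c ∈ A, c ≠ b' → ∃ l ∈ r, l.1 = c) ∧
          (r ++ (a, i) :: p).length ≤ D ∧ code (r ++ (a, i) :: p) = κ := by
      intro b' hb'
      have h1 : (A.erase b').card = 2 * k + 1 := by
        rw [Finset.card_erase_of_mem hb', hA]; omega
      obtain ⟨b, hb⟩ : (A.erase b').Nonempty := by
        rw [← Finset.card_pos, h1]; omega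
      have h2 : ((A.erase b').erase b).card = 2 * k := by
        rw [Finset.card_erase_of_mem hb, h1]; omega
      set A' := (A.erase b').erase b with hA'
      set r' : List (Letter n N) := A'.toList.map (fun c => (c, i)) with hr'
      have hr'len : r'.length = 2 * k := by
        rw [hr', List.length_map, Finset.length_toList, h2]
      have hbA' : b ∉ A' := Finset.notMem_erase _ _
      obtain ⟨j, hTj⟩ := hT b (r' ++ (a, i) :: p)
      have hlen' : (r' ++ (a, i) :: p).length + 1 + k * k ≤ D := by
        rw [List.length_append, List.length_cons, hr'len]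
        nlinarith
      obtain ⟨S, hS, hS'⟩ := ih A' h2 b hbA' (r' ++ (a, i) :: p) j hTj hlen'
      refine ⟨S, hS, ?_⟩
      intro κ hκ
      obtain ⟨r'', h3, h4, h5⟩ := hS' κ hκ
      have happ : (r'' ++ (b, j) :: r') ++ (a, i) :: p = r'' ++ (b, j) :: (r' ++ (a, i) :: p) := by
        simp
      refine ⟨r'' ++ (b, j) :: r', ?_, ?_, ?_, ?_⟩
      · intro l hl
        rw [List.mem_append, List.mem_cons] at hl
        rcases hl with hl | rfl | hl
        · have := h3 l hl
          rw [hA', Finset.mem_erase, Finset.mem_erase] at this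
          exact ⟨this.2.2, this.2.1⟩
        · rw [Finset.mem_erase] at hb
          exact ⟨hb.2, hb.1⟩
        · rw [hr', List.mem_map] at hl
          obtain ⟨c, hc, rfl⟩ := hl
          rw [Finset.mem_toList, hA', Finset.mem_erase, Finset.mem_erase] at hc
          exact ⟨hc.2.2, hc.2.1⟩
      · intro c hc hcb'
        by_cases hcb : c = b
        · exact ⟨(b, j), by simp, hcb.symm⟩
        · refine ⟨(c, i), ?_, rfl⟩
          rw [List.mem_append, List.mem_cons]
          right; right
          rw [hr', List.mem_map]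
          refine ⟨c, ?_, rfl⟩
          rw [Finset.mem_toList, hA', Finset.mem_erase, Finset.mem_erase]
          exact ⟨hcb, hcb', hc⟩
      · rw [happ]; exact h4
      · rw [happ]; exact h5
    choose! S hS1 hS2 using hstep
    refine ⟨⋃ b' ∈ A, S b', ?_, ?_⟩
    · have hdisj : (A : Set (Fin n)).PairwiseDisjoint S := by
        intro b' hb' b'' hb'' hne
        rw [Function.onFun, Set.disjoint_left]
        intro κ hκ' hκ''
        obtain ⟨r0, h1, h2, h3, h4⟩ := hS2 b' hb' κ hκ'
        obtain ⟨r1, h1', h2', h3', h4'⟩ := hS2 b'' hb'' κ hκ''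
        have hab' : a ≠ b' := fun h => ha (h ▸ hb')
        refine hconf a b' p i hab' hTi r0 r1 ?_ ?_ ?_ ?_ h3 h3' (h4.trans h4'.symm)
        · intro l hl h; exact ha (h ▸ (h1 l hl).1)
        · intro l hl; exact (h1 l hl).2
        · intro l hl h; exact ha (h ▸ (h1' l hl).1)
        · exact h2' b' hb' hne
      have hcard : (⋃ b' ∈ A, S b').ncard = ∑ b' ∈ A, (S b').ncard := by
        have hfin : ∀ b', (S b').Finite := fun b' => Set.toFinite _
        have h1 : (⋃ b' ∈ A, S b') = ((A.biUnion fun b' => (hfin b').toFinset : Finset _) : Set _) := by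
          ext κ
          simp
        rw [h1, Set.ncard_coe_finset, Finset.card_biUnion]
        · refine Finset.sum_congr rfl fun b' _ => ?_
          rw [Set.ncard_eq_toFinset_card _ (hfin b')]
        · intro b' hb' b'' hb'' hne
          rw [Function.onFun, Set.Finite.disjoint_toFinset]
          exact hdisj hb' hb'' hne
      rw [hcard]
      calc WW (k + 1) = ∑ _b' ∈ A, WW k := by
            rw [Finset.sum_const, hA, smul_eq_mul, WW]
        _ ≤ _ := Finset.sum_le_sum fun b' hb' => hS1 b' hb'
    · intro κ hκ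
      simp only [Set.mem_iUnion] at hκ
      obtain ⟨b', hb', hκ⟩ := hκ
      obtain ⟨r, h1, -, h3, h4⟩ := hS2 b' hb' κ hκ
      exact ⟨r, fun l hl => (h1 l hl).1, h3, h4⟩

/-- The set of codes of the states above `g` in which `a` is never renewed and `b` is not renewed
(first component), respectively is renewed (second component). -/
def PhiK {n N : ℕ} {K : Type} (D : ℕ) (code : List (Letter n N) → K) (a : Fin n)
    (g : List (Letter n N)) : (Fin n → Set K) × (Fin n → Set K) :=
  (fun b => {κ | ∃ r : List (Letter n N), (∀ l ∈ r, l.1 ≠ a) ∧ (∀ l ∈ r, l.1 ≠ b) ∧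
      (r ++ g).length ≤ D ∧ code (r ++ g) = κ},
   fun b => {κ | ∃ r : List (Letter n N), (∀ l ∈ r, l.1 ≠ a) ∧ (∃ l ∈ r, l.1 = b) ∧
      (r ++ g).length ≤ D ∧ code (r ++ g) = κ})

/-- three letters with the same `PhiK` -/
def Triple {n N : ℕ} {K : Type} (D : ℕ) (code : List (Letter n N) → K) (a : Fin n)
    (p : List (Letter n N)) (i : Fin N) : Prop :=
  ∃ i2 i3 : Fin N, i ≠ i2 ∧ i ≠ i3 ∧ i2 ≠ i3 ∧
    PhiK D code a ((a, i) :: p) = PhiK D code a ((a, i2) :: p) ∧
    PhiK D code a ((a, i) :: p) = PhiK D code a ((a, i3) :: p)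

lemma exists_triple {n N : ℕ} {K : Type} [Finite K]
    (hN : 2 * Nat.card ((Fin n → Set K) × (Fin n → Set K)) < N) (D : ℕ)
    (code : List (Letter n N) → K) (a : Fin n) (p : List (Letter n N)) :
    ∃ i, Triple D code a p i := by
  classical
  have : Finite ((Fin n → Set K) × (Fin n → Set K)) := inferInstance
  let _inst : Fintype ((Fin n → Set K) × (Fin n → Set K)) := Fintype.ofFinite _
  obtain ⟨y, hy⟩ := Fintype.exists_lt_card_fiber_of_mul_lt_card
    (fun i : Fin N => PhiK D code a ((a, i) :: p)) (n := 2) (by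
      rw [Fintype.card_fin, ← Nat.card_eq_fintype_card, mul_comm]; exact hN)
  rw [Finset.two_lt_card] at hy
  obtain ⟨i, h1, i2, h2, i3, h3, h12, h13, h23⟩ := hy
  simp only [Finset.mem_filter, Finset.mem_univ, true_and] at h1 h2 h3
  exact ⟨i, i2, i3, h12, h13, h23, h1.trans h2.symm, h1.trans h3.symm⟩

end Run7.h50
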