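import Mathlib
import Pool.Agent.Run7.h50.Count

set_option autoImplicit false

namespace Run7.h50

open SimpleGraph

/-- The vertices whose node has length at most `D`. -/
abbrev VFin (n N D : ℕ) := {v : W n N // v.1.length ≤ D}

/-- The finite row-and-hub graph. -/
def GFin (n N D : ℕ) : SimpleGraph (VFin n N D) := (GInf n N).comap Subtype.val

lemma finite_VFin (n N D : ℕ) : Finite (VFin n N D) := by
  have h1 : {l : List (Letter n N) | l.length ≤ D}.Finite := List.finite_length_le _ _
  have h2 : ({l : List (Letter n N) | l.length ≤ D} ×ˢ (Set.univ : Set (Fin n × Bool))).Finite :=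
    h1.prod Set.finite_univ
  refine Set.Finite.to_subtype (s := {v : W n N | v.1.length ≤ D}) (h2.subset ?_)
  intro v hv
  exact ⟨hv, Set.mem_univ _⟩

/-- A list form of the absence of nonrepetitive colourings. -/
lemma noRep_of {n N D K : ℕ} (w0 : VFin n N D) (f : VFin n N D → Fin K)
    (hf : ∀ (u v : VFin n N D) (p : (GFin n N D).Walk u v), p.IsPath →
      ∀ t : ℕ, p.support.length = 2 * t →
        (p.support.take t).map f ≠ (p.support.drop t).map f) :
    NoRep D (fun w : W n N => if h : w.1.length ≤ D then f ⟨w, h⟩ else f w0) := by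
  classical
  intro l₁ l₂ hne hlen hchain hnodup hbound
  have hb1 : ∀ v ∈ l₁, v.1.length ≤ D := fun v hv => hbound v (List.mem_append_left _ hv)
  have hb2 : ∀ v ∈ l₂, v.1.length ≤ D := fun v hv => hbound v (List.mem_append_right _ hv)
  lift l₁ to List (VFin n N D) using hb1
  lift l₂ to List (VFin n N D) using hb2
  rw [← List.map_append] at hchain hnodup
  have hne' : l₁ ≠ [] := by simpa using hne
  have hlen' : l₁.length = l₂.length := by simpa using hlen
  have hne2 : l₁ ++ l₂ ≠ [] := by simp [hne']
  have hch : (l₁ ++ l₂).IsChain (GFin n N D).Adj := by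
    rw [List.isChain_map] at hchain
    exact hchain
  have hnd : (l₁ ++ l₂).Nodup := hnodup.of_map _
  have hp := hf _ _ (Walk.ofSupport (l₁ ++ l₂) hne2 hch)
    (by rw [Walk.isPath_def, Walk.support_ofSupport]; exact hnd) l₁.length
    (by rw [Walk.support_ofSupport, List.length_append]; omega)
  rw [Walk.support_ofSupport, List.take_left, List.drop_left] at hp
  intro h
  apply hp
  rw [List.map_map, List.map_map] at h
  have key : ∀ l : List (VFin n N D),
      l.map ((fun w : W n N => if h : w.1.length ≤ D then f ⟨w, h⟩ else f w0) ∘ Subtype.val)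
        = l.map f := by
    intro l
    refine List.map_congr_left fun v _ => ?_
    simp only [Function.comp_apply]
    rw [dif_pos v.2]
  rwa [key, key] at h

/-- For every number `K` of colours there is a finite graph all of whose `r`-shallow minors have at
most `24 r + 9` times as many edges as vertices, and which has no nonrepetitive colouring
with `K` colours. -/
theorem exists_graph (K : ℕ) : ∃ (V : Type) (_ : Fintype V) (G : SimpleGraph V),
    (∀ (r m : ℕ) (H : SimpleGraph (Fin m)) (B : Fin m → Set V) (x : Fin m → V),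
      (∀ i j, i ≠ j → Disjoint (B i) (B j)) →
      (∀ i, x i ∈ B i ∧ ∀ y ∈ B i, ∃ p : G.Walk (x i) y,
        p.length ≤ r ∧ ∀ z ∈ p.support, z ∈ B i) →
      (∀ i j, H.Adj i j → ∃ a ∈ B i, ∃ b ∈ B j, G.Adj a b) →
      H.edgeSet.ncard ≤ (24 * r + 9) * m) ∧
    ¬ ∃ f : V → Fin K, ∀ (u v : V) (p : G.Walk u v), p.IsPath →
      ∀ t : ℕ, p.support.length = 2 * t →
        (p.support.take t).map f ≠ (p.support.drop t).map f := by
  classical
  obtain ⟨k, hk⟩ := exists_big K
  let N := Nat.card (PhiT (2 * k + 1) (Fin K)) + 1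
  have hfin := finite_VFin (2 * k + 1) N (k * k + 1)
  refine ⟨VFin (2 * k + 1) N (k * k + 1), Fintype.ofFinite _, GFin _ _ _, ?_, ?_⟩
  · intro r m H B x h1 h2 h3
    exact expansion (GFin (2 * k + 1) N (k * k + 1)) Subtype.val Subtype.val_injective
      (fun u v h => h) r m H B x h1 h2 h3
  · rintro ⟨f, hf⟩
    let w0 : VFin (2 * k + 1) N (k * k + 1) := ⟨([], 0, false), by simp⟩
    have hN := noRep_of w0 f hf
    have := count_bound hN (Nat.lt_succ_self _) le_rfl
    rw [Nat.card_eq_fintype_card, Fintype.card_fin] at this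
    omega

end Run7.h50
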