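import Mathlib
import Pool.Agent.Run7.h50.CountAbs
import Pool.Agent.Run7.h50.Final

set_option autoImplicit false

namespace Run7.h50

open SimpleGraph

/-- `pos` and `q` are a queue layout of the part of the row-and-hub graph with nodes of length at
most `D`: no two edges with the same label are nested. -/
structure NoNest {n N : ℕ} {C : Type} (D : ℕ) (pos : W n N → ℕ) (q : W n N → W n N → C) : Prop where
  inj : ∀ u v : W n N, u.1.length ≤ D → v.1.length ≤ D → pos u = pos v → u = v
  symm : ∀ u v, q u v = q v u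
  nest : ∀ x y u v : W n N, x.1.length ≤ D → y.1.length ≤ D → u.1.length ≤ D → v.1.length ≤ D →
    (GInf n N).Adj x y → (GInf n N).Adj u v → q x y = q u v →
    pos x < pos u → pos u < pos v → pos v < pos y → False

/-- the next layer, if there is one -/
def nxt {n : ℕ} (j : Fin n) : Fin n := if h : (j : ℕ) + 1 < n then ⟨(j : ℕ) + 1, h⟩ else j

/-- the code of a state: labels and directions of the edges at its row -/
def qcode {n N : ℕ} {C : Type} (pos : W n N → ℕ) (q : W n N → W n N → C)
    (s : List (Letter n N)) : Fin n → (C × Bool) × (C × Bool) :=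
  fun j => ((q (s, j, false) (holder j s, j, true),
      decide (pos (s, j, false) < pos (holder j s, j, true))),
    (q (s, j, false) (s, nxt j, false), decide (pos (s, j, false) < pos (s, nxt j, false))))

/-- Two edges with the same label and the same direction have the same order at both ends. -/
lemma mono {n N : ℕ} {C : Type} {D : ℕ} {pos : W n N → ℕ} {q : W n N → W n N → C}
    (h : NoNest D pos q) {x y u v : W n N} (hx : x.1.length ≤ D) (hy : y.1.length ≤ D)
    (hu : u.1.length ≤ D) (hv : v.1.length ≤ D) (hxy : (GInf n N).Adj x y)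
    (huv : (GInf n N).Adj u v) (hq : q x y = q u v)
    (hdir : decide (pos x < pos y) = decide (pos u < pos v)) (hyv : y ≠ v)
    (hlt : pos x < pos u) : pos y < pos v := by
  rcases lt_trichotomy (pos y) (pos v) with h1 | h1 | h1
  · exact h1
  · exact absurd (h.inj _ _ hy hv h1) hyv
  · exfalso
    rw [decide_eq_decide] at hdir
    by_cases h2 : pos x < pos y
    · have h3 := hdir.mp h2
      exact h.nest x y u v hx hy hu hv hxy huv hq hlt h3 h1
    · have h3 : ¬ pos u < pos v := fun h4 => h2 (hdir.mpr h4)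
      have h4 : pos y ≠ pos x := fun h5 => hxy.ne (h.inj _ _ hx hy h5.symm)
      have h5 : pos v ≠ pos u := fun h6 => huv.ne (h.inj _ _ hu hv h6.symm)
      have h6 : pos y < pos x := lt_of_le_of_ne (not_lt.mp h2) h4
      -- `v < y < x < u`
      refine h.nest v u y x hv hu hy hx huv.symm hxy.symm ?_ h1 h6 hlt
      rw [h.symm v u, h.symm y x, hq]

lemma row_step {n N : ℕ} {C : Type} {D : ℕ} {pos : W n N → ℕ} {q : W n N → W n N → C}
    (h : NoNest D pos q) {s t : List (Letter n N)} (hs : s.length ≤ D) (ht : t.length ≤ D)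
    (hst : s ≠ t) (hc : qcode pos q s = qcode pos q t) (j : Fin n) (hj : (j : ℕ) + 1 < n) :
    (pos (s, j, false) < pos (t, j, false) ↔
      pos (s, ⟨(j : ℕ) + 1, hj⟩, false) < pos (t, ⟨(j : ℕ) + 1, hj⟩, false)) := by
  have hn : nxt j = ⟨(j : ℕ) + 1, hj⟩ := by simp [nxt, hj]
  have hcj := congrFun hc j
  simp only [qcode, Prod.mk.injEq] at hcj
  obtain ⟨-, hq, hd⟩ := hcj
  rw [hn] at hq hd
  set j' : Fin n := ⟨(j : ℕ) + 1, hj⟩ with hj'
  have hstep : step j j' := Or.inl rfl
  constructor
  · intro hlt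
    refine mono h hs hs ht ht (adj_row s hstep) (adj_row t hstep) hq hd ?_ hlt
    intro he
    exact hst (congrArg Prod.fst he)
  · intro hlt
    by_contra hcon
    have hne : pos (s, j, false) ≠ pos (t, j, false) := by
      intro he
      exact hst (congrArg Prod.fst (h.inj _ _ hs ht he))
    have hlt' : pos (t, j, false) < pos (s, j, false) := lt_of_le_of_ne (not_lt.mp hcon) hne.symm
    have := mono h ht ht hs hs (adj_row t hstep) (adj_row s hstep) hq.symm hd.symm (by
      intro he
      exact hst (congrArg Prod.fst he).symm) hlt'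
    omega

lemma row_all {n N : ℕ} {C : Type} {D : ℕ} {pos : W n N → ℕ} {q : W n N → W n N → C}
    (h : NoNest D pos q) {s t : List (Letter n N)} (hs : s.length ≤ D) (ht : t.length ≤ D)
    (hst : s ≠ t) (hc : qcode pos q s = qcode pos q t) (i j : Fin n) :
    (pos (s, i, false) < pos (t, i, false) ↔ pos (s, j, false) < pos (t, j, false)) := by
  have key : ∀ (d : ℕ) (i j : Fin n), (i : ℕ) + d = j →
      (pos (s, i, false) < pos (t, i, false) ↔ pos (s, j, false) < pos (t, j, false)) := by
    intro d
    induction d with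
    | zero =>
      intro i j hij
      have : i = j := Fin.ext (by omega)
      rw [this]
    | succ d ih =>
      intro i j hij
      have hi : (i : ℕ) + 1 < n := by have := j.2; omega
      rw [row_step h hs ht hst hc i hi]
      exact ih ⟨(i : ℕ) + 1, hi⟩ j (by simp only; omega)
  rcases le_total i j with hij | hij
  · exact key ((j : ℕ) - i) i j (by rw [Fin.le_def] at hij; omega)
  · exact (key ((i : ℕ) - j) j i (by rw [Fin.le_def] at hij; omega)).symm

lemma hub_mono {n N : ℕ} {C : Type} {D : ℕ} {pos : W n N → ℕ} {q : W n N → W n N → C}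
    (h : NoNest D pos q) {s t : List (Letter n N)} (hs : s.length ≤ D) (ht : t.length ≤ D)
    (hst : s ≠ t) (hc : qcode pos q s = qcode pos q t) (j : Fin n)
    (hlt : pos (holder j s, j, true) < pos (holder j t, j, true)) :
    pos (s, j, false) < pos (t, j, false) := by
  have hcj := congrFun hc j
  simp only [qcode, Prod.mk.injEq] at hcj
  obtain ⟨⟨hq, hd⟩, -⟩ := hcj
  have hhs : (holder j s).length ≤ D := (holder_suffix j s).length_le.trans hs
  have hht : (holder j t).length ≤ D := (holder_suffix j t).length_le.trans ht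
  refine mono h (x := (holder j s, j, true)) (u := (holder j t, j, true)) hhs hs hht ht
    (adj_hub s j).symm (adj_hub t j).symm ?_ ?_ ?_ hlt
  · rw [h.symm, h.symm (holder j t, j, true), hq]
  · rw [decide_eq_decide] at hd ⊢
    have h1 : pos (s, j, false) ≠ pos (holder j s, j, true) :=
      fun he => (adj_hub s j).ne (h.inj _ _ hs hhs he)
    have h2 : pos (t, j, false) ≠ pos (holder j t, j, true) :=
      fun he => (adj_hub t j).ne (h.inj _ _ ht hht he)
    constructor
    · intro h3
      by_contra h4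
      have := hd.mpr (lt_of_le_of_ne (not_lt.mp h4) h2)
      omega
    · intro h3
      by_contra h4
      have := hd.mp (lt_of_le_of_ne (not_lt.mp h4) h1)
      omega
  · intro he
    exact hst (congrArg Prod.fst he)

/-- the situation above one of the three twins -/
structure Bundle {n N : ℕ} {C : Type} (D : ℕ) (pos : W n N → ℕ) (q : W n N → W n N → C)
    (a b : Fin n) (p : List (Letter n N)) (κ : Fin n → (C × Bool) × (C × Bool)) (i : Fin N)
    (s t : List (Letter n N)) : Prop where
  hs : s.length ≤ D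
  ht : t.length ≤ D
  cs : qcode pos q s = κ
  ct : qcode pos q t = κ
  as : holder a s = (a, i) :: p
  at' : holder a t = (a, i) :: p
  bs : holder b s = holder b p
  bt : holder b t ≠ holder b p

lemma bundle_absurd {n N : ℕ} {C : Type} {D : ℕ} {pos : W n N → ℕ} {q : W n N → W n N → C}
    (h : NoNest D pos q) {a b : Fin n} {p : List (Letter n N)}
    {κ : Fin n → (C × Bool) × (C × Bool)} {i1 i2 i3 : Fin N} {s1 s2 s3 t1 t2 t3 : List (Letter n N)}
    (B1 : Bundle D pos q a b p κ i1 s1 t1) (B2 : Bundle D pos q a b p κ i2 s2 t2)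
    (B3 : Bundle D pos q a b p κ i3 s3 t3)
    (h12 : pos (((a, i1) :: p), a, true) < pos (((a, i2) :: p), a, true))
    (h23 : pos (((a, i2) :: p), a, true) < pos (((a, i3) :: p), a, true)) : False := by
  have e12 : s1 ≠ t2 := by
    rintro rfl
    have := B1.as.symm.trans B2.at'
    rw [this] at h12
    omega
  have e23 : t2 ≠ s3 := by
    rintro rfl
    have := B2.at'.symm.trans B3.as
    rw [this] at h23
    omega
  have c12 : qcode pos q s1 = qcode pos q t2 := B1.cs.trans B2.ct.symm
  have c23 : qcode pos q t2 = qcode pos q s3 := B2.ct.trans B3.cs.symm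
  have l12 : pos (s1, a, false) < pos (t2, a, false) :=
    hub_mono h B1.hs B2.ht e12 c12 a (by rw [B1.as, B2.at']; exact h12)
  have l23 : pos (t2, a, false) < pos (s3, a, false) :=
    hub_mono h B2.ht B3.hs e23 c23 a (by rw [B2.at', B3.as]; exact h23)
  rw [row_all h B1.hs B2.ht e12 c12 a b] at l12
  rw [row_all h B2.ht B3.hs e23 c23 a b] at l23
  rcases lt_trichotomy (pos (holder b p, b, true)) (pos (holder b t2, b, true)) with h1 | h1 | h1
  · have := hub_mono h B3.hs B2.ht e23.symm c23.symm b (by rw [B3.bs]; exact h1)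
    omega
  · have hb1 : (holder b t2).length ≤ D := (holder_suffix b t2).length_le.trans B2.ht
    have hb2 : (holder b p).length ≤ D := by
      rw [← B1.bs]; exact (holder_suffix b s1).length_le.trans B1.hs
    exact B2.bt (congrArg Prod.fst (h.inj _ _ hb2 hb1 h1)).symm
  · have := hub_mono h B2.ht B1.hs e12.symm c12.symm b (by rw [B1.bs]; exact h1)
    omega

/-- The conflict lemma for queue layouts. -/
theorem conflict_queue {n N : ℕ} {C : Type} {D : ℕ} {pos : W n N → ℕ} {q : W n N → W n N → C}
    (h : NoNest D pos q) (a b : Fin n) (p : List (Letter n N)) (i : Fin N) (hab : a ≠ b)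
    (hT : Triple D (qcode pos q) a p i)
    (r0 r1 : List (Letter n N)) (h0a : ∀ l ∈ r0, l.1 ≠ a) (h0b : ∀ l ∈ r0, l.1 ≠ b)
    (h1a : ∀ l ∈ r1, l.1 ≠ a) (h1b : ∃ l ∈ r1, l.1 = b)
    (hl0 : (r0 ++ (a, i) :: p).length ≤ D) (hl1 : (r1 ++ (a, i) :: p).length ≤ D) :
    qcode pos q (r0 ++ (a, i) :: p) ≠ qcode pos q (r1 ++ (a, i) :: p) := by
  intro hcode
  obtain ⟨i2, i3, n12, n13, n23, hP2, hP3⟩ := hT
  set κ := qcode pos q (r0 ++ (a, i) :: p) with hκ
  have key : ∀ i' : Fin N, PhiK D (qcode pos q) a ((a, i) :: p) =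
      PhiK D (qcode pos q) a ((a, i') :: p) → ∃ s t, Bundle D pos q a b p κ i' s t := by
    intro i' hPhi
    have e1 : κ ∈ (PhiK D (qcode pos q) a ((a, i') :: p)).1 b := by
      rw [← hPhi]; exact ⟨r0, h0a, h0b, hl0, rfl⟩
    have e2 : κ ∈ (PhiK D (qcode pos q) a ((a, i') :: p)).2 b := by
      rw [← hPhi]; exact ⟨r1, h1a, h1b, hl1, hcode.symm⟩
    obtain ⟨q0, g0a, g0b, gl0, gc0⟩ := e1
    obtain ⟨q1, g1a, g1b, gl1, gc1⟩ := e2
    refine ⟨q0 ++ (a, i') :: p, q1 ++ (a, i') :: p, gl0, gl1, gc0, gc1, ?_, ?_, ?_, ?_⟩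
    · rw [holder_append_of_not _ _ _ g0a, holder_cons_self]
    · rw [holder_append_of_not _ _ _ g1a, holder_cons_self]
    · rw [holder_append_of_not _ _ _ g0b, holder_cons_ne hab]
    · obtain ⟨r', hr', hb⟩ := holder_append_of_mem b q1 ((a, i') :: p) g1b
      intro he
      rw [hb] at he
      have h1 := congrArg List.length he
      have h2 := (holder_suffix b p).length_le
      have h3 := List.length_pos_iff.mpr hr'
      simp only [List.length_append, List.length_cons] at h1
      omega
  obtain ⟨s1, t1, B1⟩ := key i rfl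
  obtain ⟨s2, t2, B2⟩ := key i2 hP2
  obtain ⟨s3, t3, B3⟩ := key i3 hP3
  have hlen : ((a, i) :: p).length ≤ D := by
    rw [List.length_append] at hl0; omega
  have hne : ∀ x y : Fin N, x ≠ y →
      pos (((a, x) :: p), a, true) ≠ pos (((a, y) :: p), a, true) := by
    intro x y hxy he
    apply hxy
    have := congrArg Prod.fst (h.inj _ _ (by simpa using hlen) (by simpa using hlen) he)
    simpa using this
  have m12 := hne _ _ n12
  have m13 := hne _ _ n13
  have m23 := hne _ _ n23
  rcases lt_or_gt_of_ne m12 with h12 | h12 <;> rcases lt_or_gt_of_ne m13 with h13 | h13 <;>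
    rcases lt_or_gt_of_ne m23 with h23 | h23
  · exact bundle_absurd h B1 B2 B3 h12 h23
  · exact bundle_absurd h B1 B3 B2 h13 h23
  · omega
  · exact bundle_absurd h B3 B1 B2 h13 h12
  · exact bundle_absurd h B2 B1 B3 h12 h13
  · omega
  · exact bundle_absurd h B2 B3 B1 h23 h13
  · exact bundle_absurd h B3 B2 B1 h23 h12

theorem queue_bound {k N : ℕ} {C : Type} [Finite C] {D : ℕ} {pos : W (2 * k + 1) N → ℕ}
    {q : W (2 * k + 1) N → W (2 * k + 1) N → C} (h : NoNest D pos q)
    (hN : 2 * Nat.card ((Fin (2 * k + 1) → Set (Fin (2 * k + 1) → (C × Bool) × (C × Bool))) ×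
      (Fin (2 * k + 1) → Set (Fin (2 * k + 1) → (C × Bool) × (C × Bool)))) < N)
    (hD : k * k + 1 ≤ D) :
    2 ^ k * k.factorial ≤ ((Nat.card C * 2) * (Nat.card C * 2)) ^ (2 * k + 1) := by
  classical
  have hfin : Finite (Fin (2 * k + 1) → (C × Bool) × (C × Bool)) := inferInstance
  obtain ⟨i, hTi⟩ := exists_triple hN D (qcode pos q) (0 : Fin (2 * k + 1)) []
  obtain ⟨S, hS, -⟩ := count_abs (D := D) (qcode pos q) (Triple D (qcode pos q))
    (fun a p => exists_triple hN D (qcode pos q) a p)
    (fun a b p i hab hT r0 r1 h1 h2 h3 h4 h5 h6 => conflict_queue h a b p i hab hT r0 r1 h1 h2 h3 h4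
      h5 h6) k (Finset.univ.erase (0 : Fin (2 * k + 1)))
    (by rw [Finset.card_erase_of_mem (Finset.mem_univ _), Finset.card_univ, Fintype.card_fin]; omega)
    0 (Finset.notMem_erase _ _) [] i hTi (by simp only [List.length_nil]; omega)
  rw [← WW_eq]
  refine hS.trans ?_
  calc S.ncard ≤ Nat.card (Fin (2 * k + 1) → (C × Bool) × (C × Bool)) := by
        rw [← Set.ncard_univ]; exact Set.ncard_le_ncard (Set.subset_univ _)
    _ = _ := by
        rw [Nat.card_fun, Nat.card_prod, Nat.card_prod, Nat.card_fin]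
        simp

/-- For every number `K` of queues there is a finite graph all of whose `r`-shallow minors have at
most `24 r + 9` times as many edges as vertices, and which has no `K`-queue layout. -/
theorem exists_graph_queue (K : ℕ) : ∃ (V : Type) (_ : Fintype V) (G : SimpleGraph V),
    (∀ (r m : ℕ) (H : SimpleGraph (Fin m)) (B : Fin m → Set V) (x : Fin m → V),
      (∀ i j, i ≠ j → Disjoint (B i) (B j)) →
      (∀ i, x i ∈ B i ∧ ∀ y ∈ B i, ∃ p : G.Walk (x i) y,
        p.length ≤ r ∧ ∀ z ∈ p.support, z ∈ B i) →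
      (∀ i j, H.Adj i j → ∃ a ∈ B i, ∃ b ∈ B j, G.Adj a b) →
      H.edgeSet.ncard ≤ (24 * r + 9) * m) ∧
    ∀ (pos : V → ℕ), Function.Injective pos → ∀ q : Sym2 V → Fin K,
      ∃ x y u v : V, G.Adj x y ∧ G.Adj u v ∧ q s(x, y) = q s(u, v) ∧
        pos x < pos u ∧ pos u < pos v ∧ pos v < pos y := by
  classical
  obtain ⟨k, hk⟩ := exists_big (K * 2)
  let N := 2 * Nat.card
    ((Fin (2 * k + 1) → Set (Fin (2 * k + 1) → (Fin K × Bool) × (Fin K × Bool))) ×
      (Fin (2 * k + 1) → Set (Fin (2 * k + 1) → (Fin K × Bool) × (Fin K × Bool)))) + 1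
  have hfin := finite_VFin (2 * k + 1) N (k * k + 1)
  refine ⟨VFin (2 * k + 1) N (k * k + 1), Fintype.ofFinite _, GFin _ _ _, ?_, ?_⟩
  · intro r m H B x h1 h2 h3
    exact expansion (GFin (2 * k + 1) N (k * k + 1)) Subtype.val Subtype.val_injective
      (fun u v h => h) r m H B x h1 h2 h3
  · intro pos hpos q
    by_contra hcon
    push Not at hcon
    let w0 : VFin (2 * k + 1) N (k * k + 1) := ⟨([], 0, false), by simp⟩
    let lift : W (2 * k + 1) N → VFin (2 * k + 1) N (k * k + 1) := fun w =>
      if h : w.1.length ≤ k * k + 1 then ⟨w, h⟩ else w0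
    have hlift : ∀ w : W (2 * k + 1) N, ∀ h : w.1.length ≤ k * k + 1, lift w = ⟨w, h⟩ := by
      intro w h
      simp only [lift]
      rw [dif_pos h]
    have hNN : NoNest (k * k + 1) (fun w => pos (lift w)) (fun u v => q s(lift u, lift v)) := by
      refine ⟨?_, ?_, ?_⟩
      · intro u v hu hv he
        have := hpos he
        rw [hlift u hu, hlift v hv] at this
        exact congrArg Subtype.val this
      · intro u v
        exact congrArg q Sym2.eq_swap
      · intro x y u v hx hy hu hv hxy huv hq h1 h2 h3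
        simp only [hlift x hx, hlift y hy, hlift u hu, hlift v hv] at hq h1 h2 h3
        have := hcon ⟨x, hx⟩ ⟨y, hy⟩ ⟨u, hu⟩ ⟨v, hv⟩ hxy huv hq h1 h2
        omega
    have := queue_bound hNN (Nat.lt_succ_self _) le_rfl
    rw [Nat.card_eq_fintype_card, Fintype.card_fin] at this
    omega

end Run7.h50
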